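import Pool.Agent.Helper988.AC.Epi

set_option autoImplicit false
open Filter Topology

namespace Pool.Agent.Results.MP_1185bc_an.Epimorphism

/-- `a 0 * (a 1 * ( ... (a (n-1) * y * c (n-1)) ... ) * c 1) * c 0` -/
def sandwich {A : Type} [Mul A] (a c : ℕ → A) : ℕ → A → A
  | 0, y => y
  | n + 1, y => sandwich a c n (a n * y * c n)

/-- the power `a ^ (n + 1)` in a possibly non-unital algebra -/
def powSucc {A : Type} [Mul A] (a : A) : ℕ → A
  | 0 => a
  | n + 1 => a * powSucc a n

section Defs

variable (A : Type) [NonUnitalNormedRing A] [NormedSpace ℂ A] [IsScalarTower ℂ A A]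
  [SMulCommClass ℂ A A]

/-- `A` is semiprime: `a A a = 0` only for `a = 0`. -/
def Semiprime : Prop := ∀ a : A, (∀ x : A, a * x * a = 0) → a = 0

variable {A} in
/-- `a` is quasinilpotent: the infimum of `‖a ^ k‖ ^ (1 / k)`, `k ≥ 1`, is zero. -/
def QuasiNilpotent (a : A) : Prop := ∀ ε : ℝ, 0 < ε → ∃ n : ℕ, ‖powSucc a n‖ ≤ ε ^ (n + 1)

variable {A} in
/-- `x` lies in the Jacobson radical of the Banach algebra `A`: all `y * x` are quasinilpotent. -/
def InRadical (x : A) : Prop := ∀ y : A, QuasiNilpotent (y * x)

/-- For all sequences `a`, `c` in the Jacobson radical, zero is the only element that lies, for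
every `n`, in the closure of `a₀ a₁ ... aₙ₋₁ A cₙ₋₁ ... c₁ c₀`. -/
def RadicalNonDivisible : Prop :=
  ∀ a c : ℕ → A, (∀ n, InRadical (a n)) → (∀ n, InRadical (c n)) →
    ∀ x : A, (∀ n, x ∈ closure (Set.range (sandwich a c n))) → x = 0

/-- There are closed subspaces `A = I₀, I₁, I₂, ...` with intersection zero and `R Iₙ R ⊆ Iₙ₊₁`
for the Jacobson radical `R`. -/
def RadicalFiltered : Prop :=
  ∃ I : ℕ → Submodule ℂ A, I 0 = ⊤ ∧ (∀ n, IsClosed (I n : Set A)) ∧
    (∀ a c : A, InRadical a → InRadical c → ∀ n, ∀ x ∈ I n, a * x * c ∈ I (n + 1)) ∧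
    ∀ x : A, (∀ n, x ∈ I n) → x = 0

end Defs

/-- Every epimorphism from a complex Banach algebra onto a semiprime complex Banach algebra whose
radical is sequentially non-divisible is continuous; this covers all semiprime Banach algebras
whose radical is filtered. -/
theorem result :
    (∀ (B A : Type) [NonUnitalNormedRing B] [NormedSpace ℂ B] [IsScalarTower ℂ B B]
      [SMulCommClass ℂ B B] [CompleteSpace B]
      [NonUnitalNormedRing A] [NormedSpace ℂ A] [IsScalarTower ℂ A A] [SMulCommClass ℂ A A]
      [CompleteSpace A] (θ : B →ₙₐ[ℂ] A),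
      Function.Surjective θ → Semiprime A → RadicalNonDivisible A → Continuous θ) ∧
    (∀ (A : Type) [NonUnitalNormedRing A] [NormedSpace ℂ A] [IsScalarTower ℂ A A]
      [SMulCommClass ℂ A A] [CompleteSpace A], RadicalFiltered A → RadicalNonDivisible A) := by
  refine ⟨?_, ?_⟩
  · intro B A _ _ _ _ _ _ _ _ _ _ θ hs hsp hnd
    have hp : ∀ (a : A) (n : ℕ), Helper988.AC.pw a n = powSucc a n := by
      intro a n
      induction n with
      | zero => rfl
      | succ n ih =>
        show a * Helper988.AC.pw a n = a * powSucc a n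
        rw [ih]
    refine Helper988.AC.epi_cont hsp (fun a c ha hc x hx => hnd a c ?_ ?_ x (fun n => ?_)) θ hs
    · intro n y ε hε
      obtain ⟨k, hk⟩ := ha n y ε hε
      exact ⟨k, by rwa [hp] at hk⟩
    · intro n y ε hε
      obtain ⟨k, hk⟩ := hc n y ε hε
      exact ⟨k, by rwa [hp] at hk⟩
    · have heq : ∀ (n : ℕ) (y : A), Helper988.AC.biprod a c n y = sandwich a c n y := by
        intro n
        induction n with
        | zero => intro y; rfl
        | succ n ih => intro y; exact ih _
      have hfun : (fun y => Helper988.AC.biprod a c n y) = sandwich a c n := funext (heq n)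
      rw [← hfun]
      exact hx n
  · intro A _ _ _ _ _ hA
    obtain ⟨I, h0, hcl, hmul, hint⟩ := hA
    refine fun a c ha hc x hx => hint x (fun n => ?_)
    have hk : ∀ (n k : ℕ) (y : A), y ∈ I k → sandwich a c n y ∈ I (k + n) := by
      intro n
      induction n with
      | zero => intro k y hy; exact hy
      | succ n ih =>
        intro k y hy
        have h1 := ih (k + 1) (a n * y * c n) (hmul _ _ (ha n) (hc n) k y hy)
        have h2 : k + 1 + n = k + (n + 1) := by omega
        rw [h2] at h1
        exact h1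
    have hsub : Set.range (sandwich a c n) ⊆ (I n : Set A) := by
      rintro v ⟨y, rfl⟩
      have := hk n 0 y (by rw [h0]; trivial)
      rw [zero_add] at this
      exact this
    exact closure_minimal hsub (hcl n) (hx n)

end Pool.Agent.Results.MP_1185bc_an.Epimorphism
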